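import Pool.Agent.Lib.helper21.Indep

set_option autoImplicit false
open Set Filter Topology

namespace Pool.Agent.Results.MP_a57f84_gt.No

universe u

/-- Every open cover has a point-finite open refinement. -/
def Metacompact (Y : Type) [TopologicalSpace Y] : Prop :=
  ∀ 𝒰 : Set (Set Y), (∀ U ∈ 𝒰, IsOpen U) → ⋃₀ 𝒰 = univ → ∃ 𝒱 : Set (Set Y), (∀ V ∈ 𝒱, IsOpen V) ∧ ⋃₀ 𝒱 = univ ∧
    (∀ V ∈ 𝒱, ∃ U ∈ 𝒰, V ⊆ U) ∧ ∀ y, {V ∈ 𝒱 | y ∈ V}.Finite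

/-- For every `y` and open `U ⊇ f⁻¹(y)`, the point `y` lies in the interior of `f(U)`. -/
def PseudoOpen {X : Type u} {Y : Type} [TopologicalSpace X] [TopologicalSpace Y] (f : X → Y) : Prop :=
  ∀ y U, IsOpen U → f ⁻¹' {y} ⊆ U → y ∈ interior (f '' U)

lemma mc {Y : Type} [TopologicalSpace Y] [Nonempty Y] (h : ∀ 𝒰 : Set (Set Y), (∀ U ∈ 𝒰, IsOpen U) → ⋃₀ 𝒰 = univ →
    ∃ 𝓕 : Set (Set Y), 𝓕.Countable ∧ (∀ F ∈ 𝓕, IsClosed F ∧ ∃ t ⊆ 𝒰, t.Finite ∧ F ⊆ ⋃₀ t) ∧ ∀ y, ∃ F ∈ 𝓕, y ∈ F) :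
    Metacompact Y := by
  classical
  intro 𝒰 h1 h2
  obtain ⟨𝓕, c, h3, h4⟩ := h 𝒰 h1 h2
  obtain ⟨F, rfl⟩ := c.exists_eq_range ((h4 (Classical.arbitrary Y)).imp fun _ k => k.1)
  simp only [forall_mem_range, exists_range_iff] at h3 h4
  choose h3 t t1 t2 t3 using h3
  refine ⟨⋃ n, (fun U => U \ ⋃ j ∈ Iio n, F j) '' t n, ?_, eq_univ_of_forall fun y => ?_, ?_, fun y => ?_⟩
  · simp only [mem_iUnion]
    rintro _ ⟨n, U, hU, rfl⟩
    exact (h1 U (t1 n hU)).sdiff ((finite_Iio n).isClosed_biUnion fun j _ => h3 j)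
  · obtain ⟨U, u1, u2⟩ := t3 _ (Nat.find_spec (h4 y))
    exact ⟨_, mem_iUnion.2 ⟨_, U, u1, rfl⟩, u2, by simpa using fun j hj => Nat.find_min (h4 y) hj⟩
  · simp only [mem_iUnion]
    rintro _ ⟨n, U, hU, rfl⟩
    exact ⟨U, t1 n hU, diff_subset⟩
  · obtain ⟨m, hm⟩ := h4 y
    refine ((finite_Iic m).biUnion fun n _ => (t2 n).image fun U => U \ ⋃ j ∈ Iio n, F j).subset ?_
    rintro _ ⟨k, k'⟩
    obtain ⟨n, U, hU, rfl⟩ := mem_iUnion.1 k
    exact mem_iUnion₂.2 ⟨n, by_contra fun q => k'.2 (mem_biUnion (show m < n from not_le.1 q) hm), U, hU, rfl⟩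

lemma lind {X : Type u} [TopologicalSpace X] [ParacompactSpace X] {κ ι : Type} [Countable κ] {S : κ → Set X}
    (hS : ∀ k, IsCompact (S k)) {C : Set X} (hC : IsClosed C) (h : C ⊆ closure (⋃ k, S k)) {O : ι → Set X}
    (hO : ∀ i, IsOpen (O i)) (k : C ⊆ ⋃ i, O i) : ∃ J : Set ι, J.Countable ∧ ∀ x ∈ C, ∃ i ∈ J, x ∈ O i := by
  obtain ⟨V, v1, v2, v3, v4⟩ := precise_refinement_set hC O hO k
  refine ⟨_, countable_iUnion fun k => (v3.finite_nonempty_inter_compact (hS k)).countable, fun x hx => ?_⟩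
  obtain ⟨i, hi⟩ := mem_iUnion.1 (v2 hx)
  obtain ⟨z, z1, z2⟩ := mem_closure_iff.1 (h hx) _ (v1 i) hi
  exact ⟨i, mem_iUnion.2 ((mem_iUnion.1 z2).imp fun _ q => ⟨z, z1, q⟩), v4 i hi⟩

lemma exr (b : ℝ) : ∃ r : ℕ → ℚ, Tendsto (fun n => (r n : ℝ)) atTop (𝓝 b) := by
  obtain ⟨u, h1, h2⟩ := mem_closure_iff_seq_limit.1 (Rat.denseRange_cast (𝕜 := ℝ) b)
  choose r hr using h1
  exact ⟨r, by simpa [hr] using h2⟩
noncomputable def r (b : ℝ) : ℕ → ℚ := (exr b).choose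
lemma r_ne {b c : ℝ} (h : b ≠ c) : ∀ᶠ n in atTop, r b n ≠ r c n :=
  (((exr b).choose_spec.sub (exr c).choose_spec).eventually_ne (sub_ne_zero.2 h)).mono fun n hn e => hn (by
    simp [show (exr b).choose n = (exr c).choose n from e])
noncomputable def K : Set ℝ := Lib.helper21.Indep.exists_bernstein.choose
lemma hK {P : Set ℝ} (h : MeasurableSet P) (k : P ⊆ K ∨ P ⊆ Kᶜ) : P.Countable := by
  by_contra q
  obtain ⟨⟨a, a1, a2⟩, b, b1, b2⟩ := Lib.helper21.Indep.exists_bernstein.choose_spec P h q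
  exact k.elim (fun k => b2 (k b1)) fun k => k a1 a2

inductive Y : Type
  | inl (d : ℕ × ℚ × ℚ)
  | inr (p : ℝ × Option ℝ)
open Y
def el {α : Type} (f : ℕ × ℚ × ℚ → α) (g : ℝ × Option ℝ → α) : Y → α
  | inl d => f d
  | inr p => g p
def op (U : Set Y) : Prop :=
  (∀ b x, inr (b, some x) ∈ U → ∀ᶠ n in atTop, inl (n, r b n, r x n) ∈ U) ∧
  (∀ b, inr (b, none) ∈ U → ∀ᶠ x in cofinite, inr (b, some x) ∈ U) ∧
  (∀ b ∈ K, inr (b, none) ∈ U → ∀ᶠ c in 𝓝 b, inr (c, none) ∈ U) ∧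
  ∀ b ∉ K, inr (b, some 0) ∈ U → ∀ᶠ c in 𝓝[≠] b, ∀ x, inr (c, some x) ∈ U
instance : TopologicalSpace Y where
  IsOpen := op
  isOpen_univ := by simp [op]
  isOpen_inter _ _ h k := ⟨fun b x q => (h.1 b x q.1).and (k.1 b x q.2), fun b q => (h.2.1 b q.1).and (k.2.1 b q.2),
    fun b c q => (h.2.2.1 b c q.1).and (k.2.2.1 b c q.2), fun b c q => ((h.2.2.2 b c q.1).and (k.2.2.2 b c q.2)).mono
      fun _ w x => ⟨w.1 x, w.2 x⟩⟩
  isOpen_sUnion _ h := ⟨fun b x ⟨U, u, q⟩ => ((h U u).1 b x q).mono fun _ w => ⟨U, u, w⟩,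
    fun b ⟨U, u, q⟩ => ((h U u).2.1 b q).mono fun _ w => ⟨U, u, w⟩,
    fun b c ⟨U, u, q⟩ => ((h U u).2.2.1 b c q).mono fun _ w => ⟨U, u, w⟩,
    fun b c ⟨U, u, q⟩ => ((h U u).2.2.2 b c q).mono fun _ w x => ⟨U, u, w x⟩⟩

def Fb (P : ℝ → Option ℝ → Prop) : Set Y := {y | ∃ b o, y = inr (b, o) ∧ P b o}
lemma mFb {P : ℝ → Option ℝ → Prop} {b : ℝ} {o : Option ℝ} : (inr (b, o) : Y) ∈ Fb P ↔ P b o :=
  ⟨fun ⟨_, _, h, k⟩ => by cases h; exact k, fun h => ⟨b, o, rfl, h⟩⟩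
lemma nFb {P : ℝ → Option ℝ → Prop} {d : ℕ × ℚ × ℚ} : (inl d : Y) ∉ Fb P := fun ⟨_, _, h, _⟩ => by cases h
lemma cl {P : ℝ → Option ℝ → Prop} (h2 : ∀ b, ¬ P b none → ∀ᶠ x in cofinite, ¬ P b (some x))
    (h3 : ∀ b ∈ K, ¬ P b none → ∀ᶠ c in 𝓝 b, ¬ P c none)
    (h4 : ∀ b ∉ K, ¬ P b (some 0) → ∀ᶠ c in 𝓝[≠] b, ∀ x, ¬ P c (some x)) : IsClosed (Fb P) :=
  ⟨⟨fun _ _ _ => .of_forall fun _ => nFb, fun b h => (h2 b (mFb.not.1 h)).mono fun _ => mFb.not.2,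
    fun b c h => (h3 b c (mFb.not.1 h)).mono fun _ => mFb.not.2,
    fun b c h => (h4 b c (mFb.not.1 h)).mono fun _ w x => mFb.not.2 (w x)⟩⟩
lemma clF {c : Set ℝ} (h : IsClosed c) : IsClosed (Fb fun b _ => b ∈ c) :=
  cl (fun _ k => .of_forall fun _ => k) (fun _ _ k => h.isOpen_compl.mem_nhds k)
    fun _ _ k => nhdsWithin_le_nhds (mem_of_superset (h.isOpen_compl.mem_nhds k) fun _ w _ => w)
lemma clD (d : ℕ × ℚ × ℚ) : IsClopen ({inl d} : Set Y) :=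
  ⟨⟨⟨fun _ _ _ => (eventually_gt_atTop d.1).mono fun n hn e => hn.ne' (congrArg (·.1) (inl.inj e)),
    fun _ _ => .of_forall fun _ => nofun, fun _ _ _ => .of_forall fun _ => nofun,
    fun _ _ _ => .of_forall fun _ _ => nofun⟩⟩, ⟨nofun, nofun, nofun, nofun⟩⟩

noncomputable def π : Y → ℝ := el (fun d => d.2.1) (·.1)
lemma cπ : Continuous π := ⟨fun _ h => ⟨fun b _ k => (exr b).choose_spec (h.mem_nhds k), fun _ k => .of_forall fun _ => k,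
  fun _ _ k => h.mem_nhds k, fun _ _ k => nhdsWithin_le_nhds (mem_of_superset (h.mem_nhds k) fun _ w _ => w)⟩⟩

lemma ev {b c : ℝ} : ∀ᶠ e in 𝓝[≠] c, e ≠ b := by
  by_cases h : c = b
  · exact h ▸ self_mem_nhdsWithin
  · exact nhdsWithin_le_nhds (eventually_ne_nhds h)

lemma U1 {b x : ℝ} (h : b ∈ K ∨ x ≠ 0) : ∃ U : Set Y, IsClopen U ∧ ∀ p, inr p ∈ U ↔ p = (b, some x) := by
  refine ⟨{y | el (fun d => d.2 = (r b d.1, r x d.1)) (· = (b, some x)) y}, ⟨⟨⟨fun c z k => ?_,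
    fun c _ => (eventually_cofinite_ne x).mono (by simp +contextual [el]), by simp [el], fun c _ _ => (ev (b := b)).mono
      (by simp +contextual [el])⟩⟩, by simp +contextual [el], by simp [el], by simp [el], fun c c1 k => ?_⟩, by simp [el]⟩
  · by_cases e : c = b
    · exact (r_ne (b := z) (c := x) (by simpa [e, el] using k)).mono (by simp +contextual [el])
    · exact (r_ne e).mono (by simp +contextual [el])
  · simp only [mem_setOf_eq, el, Prod.mk.injEq, Option.some.injEq] at k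
    exact (h.elim (fun q => c1 (k.1 ▸ q)) fun q => q k.2.symm).elim

lemma U2 {b : ℝ} (h : b ∉ K) : ∃ U : Set Y, IsClopen U ∧ ∀ p, inr p ∈ U ↔ p.1 = b ∧ p.2 ≠ some 0 := by
  refine ⟨{y | el (fun d => d.2.1 = r b d.1 ∧ d.2.2 ≠ r 0 d.1) (fun p => p.1 = b ∧ p.2 ≠ some 0) y},
    ⟨⟨⟨fun c z k => ?_, by simp +contextual [el], fun c _ k => (eventually_ne_nhds (b := b) (by simpa [el] using k)).mono
      (by simp +contextual [el]), fun c _ _ => (ev (b := b)).mono (by simp +contextual [el])⟩⟩, fun c z k => ?_,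
      fun c k => (eventually_cofinite_ne 0).mono (by simpa +contextual [el] using fun _ _ => k.1),
      fun c c1 k => (h (k.1 ▸ c1)).elim, by simp [el]⟩, by simp [el]⟩
  · by_cases e : c = b
    · simp [show z = 0 by simpa [e, el] using k, el]
    · exact (r_ne e).mono (by simp +contextual [el])
  · exact (r_ne (b := z) (c := 0) (by simpa using k.2)).mono (by simp +contextual [show c = b from k.1, el])

instance : T2Space Y := by
  have s : ∀ {U : Set Y} {x y}, IsClopen U → x ∈ U → y ∉ U → ∃ u v : Set Y, IsOpen u ∧ IsOpen v ∧ x ∈ u ∧ y ∈ v ∧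
      Disjoint u v := fun h a b => ⟨_, _, h.2, h.compl.2, a, b, disjoint_compl_right⟩
  refine ⟨?_⟩
  rintro (d | ⟨b, o⟩) y h
  · exact s (clD d) rfl h.symm
  obtain d | ⟨c, p⟩ := y
  · exact s (clD d).compl h (not_not.2 rfl)
  by_cases e : b = c
  swap; · exact separated_by_continuous cπ e
  subst e
  have h : o ≠ p := fun k => h (by rw [k])
  by_cases k : ∃ x, o = some x ∧ (b ∈ K ∨ x ≠ 0)
  · obtain ⟨x, rfl, k⟩ := k
    obtain ⟨U, u1, u2⟩ := U1 k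
    exact s u1 ((u2 _).2 rfl) ((u2 _).not.2 (by simpa using h.symm))
  by_cases k' : ∃ x, p = some x ∧ (b ∈ K ∨ x ≠ 0)
  · obtain ⟨x, rfl, k⟩ := k'
    obtain ⟨U, u1, u2⟩ := U1 k
    exact s u1.compl ((u2 _).not.2 (by simpa using h)) (not_not.2 ((u2 _).2 rfl))
  have hb : b ∉ K := fun q => by cases o <;> cases p <;> simp_all
  obtain ⟨U, u1, u2⟩ := U2 hb
  cases o <;> cases p
  · exact (h rfl).elim
  · exact s u1 ((u2 _).2 (by simp)) ((u2 _).not.2 (by simp_all))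
  · exact s u1.compl ((u2 _).not.2 (by simp_all)) (not_not.2 ((u2 _).2 (by simp)))
  · simp_all

lemma mY : Metacompact Y := by
  have : Nonempty Y := ⟨inl 0⟩
  refine mc fun 𝒰 h1 h2 => ?_
  choose U u1 u2 using fun y => mem_sUnion.1 (h2.ge (mem_univ y))
  let G : Set ℝ → Prop := fun c => ∃ t ⊆ 𝒰, t.Finite ∧ Fb (fun b _ => b ∈ c) ⊆ ⋃₀ t
  have G1 : ∀ b, G {b} := fun b => by
    have := eventually_cofinite.1 ((h1 _ (u1 _)).2.1 b (u2 _))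
    refine ⟨_, ?_, (this.image fun x => U (inr (b, some x))).insert (U (inr (b, none))), ?_⟩
    · rintro _ (rfl | ⟨x, -, rfl⟩) <;> exact u1 _
    rintro _ ⟨c, _ | x, rfl, rfl⟩
    · exact ⟨_, .inl rfl, u2 _⟩
    by_cases k : inr (c, some x) ∈ U (inr (c, none))
    exacts [⟨_, .inl rfl, k⟩, ⟨_, .inr ⟨x, k, rfl⟩, u2 _⟩]
  let E1 := {b | ∃ V ∈ 𝒰, ∀ᶠ c in 𝓝 b, inr (c, none) ∈ V}
  let E2 := {b | ∃ V ∈ 𝒰, ∃ a, ∀ᶠ c in 𝓝 b, c ≠ a → ∀ x, inr (c, some x) ∈ V}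
  have c1 : E1ᶜ.Countable := hK (IsOpen.measurableSet (s := E1) (isOpen_iff_eventually.2 fun b ⟨V, v1, v2⟩ =>
    v2.eventually_nhds.mono fun c k => ⟨V, v1, k⟩)).compl (.inr fun b h k => h ⟨_, u1 _, (h1 _ (u1 _)).2.2.1 b k (u2 _)⟩)
  have c2 : E2ᶜ.Countable := hK (IsOpen.measurableSet (s := E2) (isOpen_iff_eventually.2 fun b ⟨V, v1, a, v2⟩ =>
    v2.eventually_nhds.mono fun c k => ⟨V, v1, a, k⟩)).compl (.inl fun b h => by_contra fun k => h ⟨_, u1 _, b,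
      eventually_nhdsWithin_iff.1 ((h1 _ (u1 _)).2.2.2 b k (u2 _))⟩)
  refine ⟨range (fun d => {inl d}) ∪ ((fun p : ℚ × ℚ => Fb fun b _ => b ∈ Icc (p.1 : ℝ) p.2) '' {p | G (Icc p.1 p.2)} ∪
    (fun a => Fb fun b _ => b ∈ ({a} : Set ℝ)) '' (E1ᶜ ∪ E2ᶜ)), (countable_range _).union
      (((to_countable _).image _).union ((c1.union c2).image _)), ?_, ?_⟩
  · rintro _ (⟨d, rfl⟩ | ⟨p, hp, rfl⟩ | ⟨a, -, rfl⟩)
    exacts [⟨(clD d).1, {U (inl d)}, by simp [u1], finite_singleton _, by simp [u2]⟩, ⟨clF isClosed_Icc, hp⟩,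
      ⟨clF isClosed_singleton, G1 a⟩]
  rintro (d | ⟨b, o⟩)
  · exact ⟨_, .inl ⟨d, rfl⟩, rfl⟩
  by_cases k : b ∈ E1ᶜ ∪ E2ᶜ
  · exact ⟨_, .inr (.inr ⟨b, k, rfl⟩), mFb.2 rfl⟩
  simp only [mem_union, mem_compl_iff, not_or, not_not] at k
  obtain ⟨⟨V, v1, v2⟩, W, w1, a, w2⟩ := k
  obtain ⟨l, u, b1, b2⟩ := mem_nhds_iff_exists_Ioo_subset.1 (v2.and w2)
  obtain ⟨p, p1, p2⟩ := exists_rat_btwn b1.1
  obtain ⟨q, q1, q2⟩ := exists_rat_btwn b1.2
  obtain ⟨t, t1, t2, t3⟩ := G1 a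
  refine ⟨_, .inr (.inl ⟨(p, q), ⟨insert V (insert W t), insert_subset v1 (insert_subset w1 t1), (t2.insert _).insert _,
    ?_⟩, rfl⟩), mFb.2 ⟨p2.le, q1.le⟩⟩
  rintro _ ⟨c, o, rfl, hc⟩
  have := b2 ⟨p1.trans_le hc.1, hc.2.trans_lt q2⟩
  by_cases e : c = a
  · exact sUnion_mono ((subset_insert _ _).trans (subset_insert _ _)) (t3 (mFb.2 e))
  cases o
  exacts [⟨V, by simp, this.1⟩, ⟨W, by simp, this.2 e _⟩]

theorem result : ∃ (Y : Type) (_ : TopologicalSpace Y), T2Space Y ∧ Metacompact Y ∧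
    ∀ (X : Type u) [TopologicalSpace X] [T2Space X] [ParacompactSpace X] (f : X → Y), Continuous f →
      Function.Surjective f → (∀ y, IsCompact (f ⁻¹' {y})) → ¬ IsOpenMap f ∧ ¬ PseudoOpen f := by
  refine ⟨Y, inferInstance, inferInstance, mY, fun X _ _ _ f f1 f2 f3 => ?_⟩
  suffices ¬ PseudoOpen f from ⟨fun h => this fun y U u1 u2 => by
    obtain ⟨x, rfl⟩ := f2 y
    rw [(h U u1).interior_eq]; exact ⟨x, u2 rfl, rfl⟩, this⟩
  intro h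
  let Z := closure (⋃ d, f ⁻¹' {inl d})
  have ne : ∀ b x, ∃ z ∈ Z, f z = inr (b, some x) := fun b x => by
    by_contra! k
    obtain ⟨n, hn⟩ := ((isOpen_interior (s := f '' Zᶜ)).1 b x (h _ _ isClosed_closure.isOpen_compl fun z e q => k z q e)).exists
    obtain ⟨z, z1, z2⟩ := interior_subset hn
    exact z1 (subset_closure (mem_iUnion.2 ⟨_, z2⟩))
  have li := fun {C : Set Y} (hC : IsClosed C) {N : Set X} (hN : IsOpen N) {O : ℝ → Set Y} (hO : ∀ i, IsOpen (O i)) =>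
    lind (fun d => f3 (inl d)) ((isClosed_closure.inter (hC.preimage f1)).sdiff hN)
      (diff_subset.trans inter_subset_left) fun i => (hO i).preimage f1
  have cT : ∀ (Q : Prop) (t : ℝ → ℝ), IsClosed (Fb fun b o => (Q ∧ b ∈ K ∧ o = some (t b)) ∨ (b ∉ K ∧ o = some 0)) :=
    fun Q t => cl (fun b _ => ((eventually_cofinite_ne (t b)).and (eventually_cofinite_ne 0)).mono (by simp +contextual))
      (by simp) (by simp +contextual)
  obtain ⟨N, M, n1, m1, n2, m2, nm⟩ := normal_separation (isClosed_closure.inter ((cl (P := fun _ o => o = none)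
    (by simp) (by simp) (by simp)).preimage f1)) (isClosed_closure.inter ((cT False id).preimage f1)) (s := Z ∩ _) (t := Z ∩ _)
    (disjoint_left.2 (by
      rintro x ⟨-, b, _, e, rfl⟩ ⟨-, k⟩
      rw [mem_preimage, e, mFb] at k; simp at k))
  have oO : ∀ b ∈ K, ∀ s : Set ℝ, IsOpen (Fb fun c o => c ≠ b ∨ o ∉ some '' s)ᶜ := fun b hb s =>
    (cl (by simp) (by simp) fun c c1 k => (c1 (by simp only [not_or, not_not] at k; exact k.1 ▸ hb)).elim).isOpen_compl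
  have : ∀ b, ∃ t, b ∈ K → ∃ z ∈ Z ∩ N, f z = inr (b, some t) := fun b => by
    by_cases hb : b ∈ K
    swap; · exact ⟨0, fun k => (hb k).elim⟩
    obtain ⟨J, j1, j2⟩ := li (clF (isClosed_singleton (x := b))) n1 (fun x => oO b hb {x}) (by
      rintro z ⟨⟨z1, c, _ | x, e, rfl⟩, z2⟩
      · exact (z2 (n2 ⟨z1, _, _, e, rfl⟩)).elim
      · exact mem_iUnion.2 ⟨x, by rw [mem_preimage, e, mem_compl_iff, mFb]; simp⟩)
    obtain ⟨t, ht⟩ : ∃ t, t ∉ J := by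
      by_contra! k
      exact Cardinal.not_countable_real (j1.mono fun x _ => k x)
    obtain ⟨z, z1, z2⟩ := ne b t
    refine ⟨t, fun _ => ⟨z, ⟨z1, by_contra fun k => ?_⟩, z2⟩⟩
    obtain ⟨i, i1, i2⟩ := j2 z ⟨⟨z1, _, _, z2, rfl⟩, k⟩
    rw [mem_preimage, z2, mem_compl_iff, mFb] at i2
    exact ht (by simp at i2; exact i2 ▸ i1)
  choose t ht using this
  classical
  obtain ⟨J, j1, j2⟩ := li (cT True t) m1 (O := fun b => if b ∈ K then (Fb fun c o => c ≠ b ∨ o ∉ some '' univ)ᶜ else ∅)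
    (fun b => by split_ifs with k; exacts [oO b k _, isOpen_empty]) (by
      rintro z ⟨⟨z1, c, o, e, ⟨-, k, rfl⟩ | k⟩, z2⟩
      · exact mem_iUnion.2 ⟨c, by rw [if_pos k, mem_preimage, e, mem_compl_iff, mFb]; simp⟩
      · exact (z2 (m2 ⟨z1, _, _, e, .inr k⟩)).elim)
  have : K.Countable := j1.mono fun b hb => by
    obtain ⟨z, z1, z2⟩ := ht b hb
    obtain ⟨i, i1, i2⟩ := j2 z ⟨⟨z1.1, _, _, z2, .inl ⟨trivial, hb, rfl⟩⟩, disjoint_left.1 nm z1.2⟩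
    rw [mem_preimage, z2] at i2
    split_ifs at i2
    · rw [mem_compl_iff, mFb] at i2
      simp at i2; exact i2 ▸ i1
    · exact i2.elim
  exact Cardinal.not_countable_real (by simpa using this.union (hK this.measurableSet.compl (.inr subset_rfl)))

end Pool.Agent.Results.MP_a57f84_gt.No
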